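import Pool.Agent.W92.ET.Base

/-!
# Erdős–Turán, order two: `HH` in terms of `Phi`
-/

set_option autoImplicit false

open MeasureTheory

namespace Pool.Agent.W589.ET

open Pool.Agent.W92.ET

/-- the coefficients of `LL`. -/
noncomputable def co (w : ℝ) : ℕ → ℝ
  | 0 => 6 / 5
  | 1 => -(557 / 1800)
  | 2 => -16099 / 1800 + 881 / 150 * w
  | 3 => 3548 / 75 - 1073 / 25 * w
  | 4 => -7174 / 75 + 3238 / 25 * w - 2564 / 75 * w ^ 2
  | 5 => 432 / 5 - 866 / 5 * w + 433 / 5 * w ^ 2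
  | 6 => -144 / 5 + 433 / 5 * w - 433 / 5 * w ^ 2 + 144 / 5 * w ^ 3
  | _ => 0

lemma LL_eq (w : ℝ) (F : ℕ → ℝ) : LL w F = ∑ m ∈ Finset.range 7, co w m * F m := by
  simp only [Finset.sum_range_succ, Finset.sum_range_zero, co, LL]
  ring

lemma kk_eq (y c : ℝ) (hy : 0 < y) (hc : 0 < c) :
    kk y c = ∑ m ∈ Finset.range 7, (co (1 / y ^ 2) m * y ^ m) * (1 / (y + c) ^ (m + 1)) := by
  obtain ⟨S, hS⟩ : ∃ S, S = y + c := ⟨_, rfl⟩
  have hS0 : S ≠ 0 := by rw [hS]; positivity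
  have hc' : c = S - y := by rw [hS]; ring
  have hy0 : y ≠ 0 := hy.ne'
  unfold kk
  rw [← hS, hc']
  simp only [Finset.sum_range_succ, Finset.sum_range_zero, co, GG]
  field_simp
  ring

theorem hha : S_HHa := by
  intro y hy hint
  have h1 : ∀ τ : ℝ, kk y (Real.cosh τ) =
      ∑ m ∈ Finset.range 7, (co (1 / y ^ 2) m * y ^ m) * (1 / (y + Real.cosh τ) ^ (m + 1)) :=
    fun τ => kk_eq y _ (by linarith) (Real.cosh_pos τ)
  have h2 : (fun τ : ℝ => kk y (Real.cosh τ)) = fun τ =>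
      ∑ m ∈ Finset.range 7, (co (1 / y ^ 2) m * y ^ m) * (1 / (y + Real.cosh τ) ^ (m + 1)) :=
    funext h1
  have h3 : ∀ m ∈ Finset.range 7, Integrable (fun τ : ℝ => (co (1 / y ^ 2) m * y ^ m) *
      (1 / (y + Real.cosh τ) ^ (m + 1))) (volume.restrict (Set.Ioi (0 : ℝ))) :=
    fun m _ => (hint m).const_mul _
  refine ⟨?_, ?_⟩
  · rw [h2]
    exact integrable_finsetSum _ h3
  · unfold HH
    rw [h2, integral_finsetSum _ h3, LL_eq, Finset.mul_sum]
    refine Finset.sum_congr rfl fun m _ => ?_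
    rw [integral_const_mul]
    unfold Phi
    ring

end Pool.Agent.W589.ET
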